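import Pool.Agent.Helper45.PQ.StA

/-!
# Project PQ (MP_a1f43d_co), module LPB: points of `T` perpendicular to a totally singular line
-/

set_option autoImplicit false

open Module Classical
open scoped LinearAlgebra.Projectivization

namespace Pool.Agent.Helper82.PQ

open Pool.Agent.Helper45.PQ
open Pool.Agent.Helper53.PB (tt line HasParams Form Setup Polar Nb Kind nn_self_le left_mem_line
  right_mem_line card_eval_two geo_two rep_ne)

universe u v

private theorem tt_le_aux {F : Type u} [Field F] [Finite F] {V : Type v} [AddCommGroup V]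
    [Module F V] [FiniteDimensional F V] {P : Polar F V} {T : Finset (ℙ F V)} {ι : Type}
    [Fintype ι] {j : ℕ} (S : Setup P T ι 2 j) {E : Submodule F V} (hE : P.TS E) :
    tt T E ≤ 1 + j := by
  by_cases h : ∃ z ∈ T, z.rep ∈ E
  · obtain ⟨z, hz, hzE⟩ := h
    refine le_trans ?_ (nn_self_le S hz)
    unfold tt Polar.nn
    apply Finset.card_le_card
    intro y hy
    rw [Finset.mem_filter] at hy ⊢
    exact ⟨hy.1, hE.2 _ hy.2 _ hzE⟩
  · unfold tt
    rw [Finset.filter_eq_empty_iff.2 (fun y hy hyE => h ⟨y, hy, hyE⟩)]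
    simp

theorem hLPB : StLPB.{u, v} := by
  intro F _ _ V _ _ _ P T ι _ j S A B hAB hTS
  obtain ⟨U, hU, hle⟩ := Pool.Agent.Helper53.PB.Polar.exists_gen_ge hTS
  obtain ⟨N⟩ := S.nbs U hU
  have hfin : finrank F U = 2 + 2 := S.gen U hU
  have hA : A.rep ∈ U := hle (left_mem_line _ _)
  have hB : B.rep ∈ U := hle (right_mem_line _ _)
  have hA0 : (⟨A.rep, hA⟩ : U) ≠ 0 := fun h => A.rep_nonzero (congrArg Subtype.val h)
  obtain ⟨D0, hD0⟩ : ∃ D0 : Finset (ℙ F (Dual F U)), D0 = Finset.univ.filter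
    (fun G : ℙ F (Dual F U) => G.rep ⟨A.rep, hA⟩ = 0 ∧ G.rep ⟨B.rep, hB⟩ = 0) := ⟨_, rfl⟩
  have hcD0 : D0.card = Nat.card F + 1 := by
    rw [hD0, card_eval_two hfin hA0 (rep_ne hA hB (Ne.symm hAB)), geo_two]
  obtain ⟨D, hD⟩ : ∃ D : Finset (ι × ℙ F (Dual F U)), D = Finset.univ ×ˢ D0 := ⟨_, rfl⟩
  have hcD : D.card = Fintype.card ι * (Nat.card F + 1) := by
    rw [hD, Finset.card_product, hcD0, Finset.card_univ]
  have hsub : T.filter (fun y => P.f y.rep A.rep = 0 ∧ P.f y.rep B.rep = 0) ⊆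
      T.filter (fun y => y.rep ∈ U) ∪ D.biUnion (fun p => T.filter (fun y => y.rep ∈ N.nb p)) := by
    intro y hy
    rw [Finset.mem_filter] at hy
    obtain ⟨hyT, hyA, hyB⟩ := hy
    rw [Finset.mem_union]
    by_cases hyU : y.rep ∈ U
    · exact Or.inl (Finset.mem_filter.2 ⟨hyT, hyU⟩)
    · right
      obtain ⟨p, hp, _⟩ := N.out y.rep (S.block.1 y hyT) hyU
      rw [Finset.mem_biUnion]
      refine ⟨p, ?_, Finset.mem_filter.2 ⟨hyT, hp⟩⟩
      rw [hD, Finset.mem_product]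
      refine ⟨Finset.mem_univ _, ?_⟩
      rw [hD0, Finset.mem_filter]
      exact ⟨Finset.mem_univ _, (N.perp p _ hp hyU ⟨A.rep, hA⟩).1 hyA,
        (N.perp p _ hp hyU ⟨B.rep, hB⟩).1 hyB⟩
  refine (Finset.card_le_card hsub).trans ((Finset.card_union_le _ _).trans ?_)
  have h1 : (T.filter (fun y => y.rep ∈ U)).card ≤ 1 + j := tt_le_aux S hU.1
  have h2 : (D.biUnion (fun p => T.filter (fun y => y.rep ∈ N.nb p))).card ≤ D.card * (1 + j) :=
    Finset.card_biUnion_le_card_mul _ _ _ (fun p _ => tt_le_aux S (N.gen p).1)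
  rw [hcD] at h2
  calc _ ≤ (1 + j) + Fintype.card ι * (Nat.card F + 1) * (1 + j) := Nat.add_le_add h1 h2
    _ = (1 + j) * (1 + Fintype.card ι * (Nat.card F + 1)) := by ring

end Pool.Agent.Helper82.PQ
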