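import Pool.Agent.Helper45.PQ.StK

/-!
# Project PQ (MP_a1f43d_co), module NWD: hyperplanes of non-singular vectors, dichotomy
-/

set_option autoImplicit false

open Module Classical
open scoped LinearAlgebra.Projectivization

namespace Pool.Agent.Helper82.PQ

open Pool.Agent.Helper45.PQ
open Pool.Agent.Helper53.PB (line left_mem_line right_mem_line finrank_line line_le mem_line)
open Pool.Agent.Helper53.PB.Polar (finrank_inf_ker)

universe u v

private theorem pself {F : Type u} {V : Type v} [Field F] [AddCommGroup V] [Module F V]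
    (Q : QuadraticForm F V) {x : V} (h : Q x = 0) : QuadraticMap.polar Q x x = 0 := by
  rw [polar_self_two, h, mul_zero]

private theorem psub {F : Type u} {V : Type v} [Field F] [AddCommGroup V] [Module F V]
    (Q : QuadraticForm F V) (a x y : V) (c : F) :
    QuadraticMap.polar Q a (x - c • y) = QuadraticMap.polar Q a x - c * QuadraticMap.polar Q a y := by
  rw [QuadraticMap.polar_sub_right, QuadraticMap.polar_smul_right, smul_eq_mul]

private theorem two_pts {F : Type u} [Field F] [Finite F] {V : Type v}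
    [AddCommGroup V] [Module F V] [Finite V] [FiniteDimensional F V] (hC : StCNT.{u, v})
    (Q : QuadraticForm F V) (hq : Qd Q 5 2) (W : Submodule F V) (hW : finrank F W = 4)
    (hnd : ∀ x ∈ W, x ≠ 0 → ∃ y ∈ W, QuadraticMap.polar Q x y ≠ 0)
    (v v₂ : ℙ F V) (hv : v.rep ∈ W) (hv₂ : v₂.rep ∈ W) (hQ : Q v.rep = 0) (hQ₂ : Q v₂.rep = 0)
    (hf : QuadraticMap.polar Q v.rep v₂.rep ≠ 0)
    (hne : (sp Q (W ⊓ prp Q v.rep ⊓ prp Q v₂.rep)).card ≠ 0) :
    (sp Q (W ⊓ prp Q v.rep ⊓ prp Q v₂.rep)).card = 2 := by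
  have hf' : QuadraticMap.polar Q v₂.rep v.rep ≠ 0 := by rwa [QuadraticMap.polar_comm]
  have hd1 : finrank F (W ⊓ prp Q v.rep : Submodule F V) + 1 = finrank F W :=
    finrank_inf_ker W _ (fun h => hf (h hv₂))
  have hvm : v.rep ∈ (W ⊓ prp Q v.rep : Submodule F V) := ⟨hv, mem_prp.2 (pself Q hQ)⟩
  have hd2 : finrank F (W ⊓ prp Q v.rep ⊓ prp Q v₂.rep : Submodule F V) + 1 =
      finrank F (W ⊓ prp Q v.rep : Submodule F V) :=
    finrank_inf_ker (W ⊓ prp Q v.rep) _ (fun h => hf' (h hvm))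
  obtain ⟨W₂, hW₂⟩ : ∃ W₂ : Submodule F V, W₂ = W ⊓ prp Q v.rep ⊓ prp Q v₂.rep := ⟨_, rfl⟩
  rw [← hW₂] at hd2 hne ⊢
  have hdim : finrank F W₂ = 0 + 2 := by omega
  have hmem : ∀ x, x ∈ W₂ ↔ x ∈ W ∧ QuadraticMap.polar Q v.rep x = 0 ∧
      QuadraticMap.polar Q v₂.rep x = 0 := by
    intro x
    rw [hW₂, Submodule.mem_inf, Submodule.mem_inf, mem_prp, mem_prp, and_assoc]
  obtain ⟨z₁, hz₁⟩ := Finset.card_pos.1 (Nat.pos_of_ne_zero hne)
  obtain ⟨hz1, hz2⟩ := mem_sp.1 hz₁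
  obtain ⟨hz3, hz4, hz5⟩ := (hmem _).1 hz1
  have hex : ∃ y ∈ W₂, QuadraticMap.polar Q z₁.rep y ≠ 0 := by
    obtain ⟨x, hx, hfx⟩ := hnd z₁.rep hz3 z₁.rep_nonzero
    obtain ⟨a, ha⟩ : ∃ a : F, a * QuadraticMap.polar Q v₂.rep v.rep =
      QuadraticMap.polar Q v₂.rep x := ⟨_, div_mul_cancel₀ _ hf'⟩
    obtain ⟨b, hb⟩ : ∃ b : F, b * QuadraticMap.polar Q v.rep v₂.rep =
      QuadraticMap.polar Q v.rep x := ⟨_, div_mul_cancel₀ _ hf⟩
    refine ⟨x - a • v.rep - b • v₂.rep, ?_, ?_⟩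
    · rw [hmem]
      refine ⟨W.sub_mem (W.sub_mem hx (W.smul_mem _ hv)) (W.smul_mem _ hv₂), ?_, ?_⟩
      · rw [psub, psub, pself Q hQ, mul_zero, sub_zero, hb, sub_self]
      · rw [psub, psub, pself Q hQ₂, mul_zero, sub_zero, ha, sub_self]
    · rw [psub, psub, QuadraticMap.polar_comm Q z₁.rep v.rep, hz4,
        QuadraticMap.polar_comm Q z₁.rep v₂.rep, hz5, mul_zero, mul_zero, sub_zero, sub_zero]
      exact hfx
  have h1 := hC F V Q W₂ z₁.rep 0 hz1 hz2 hex hdim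
  rw [pow_zero] at h1
  have h2 : (sp Q W₂).filter (fun y => ¬ QuadraticMap.polar Q z₁.rep y.rep ≠ 0) = {z₁} := by
    ext y
    rw [Finset.mem_filter, Finset.mem_singleton, not_not]
    constructor
    · rintro ⟨hy, hyz⟩
      by_contra hyne
      obtain ⟨hy1, hy2⟩ := mem_sp.1 hy
      have hlW : line z₁ y ≤ W₂ := line_le hz1 hy1
      have hls : ∀ x ∈ line z₁ y, Q x = 0 := by
        intro x hx
        obtain ⟨a, b, rfl⟩ := mem_line.1 hx
        rw [QuadraticMap.map_add Q, QuadraticMap.map_smul, QuadraticMap.map_smul, hz2, hy2,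
          QuadraticMap.polar_smul_left, QuadraticMap.polar_smul_right, hyz]
        simp
      have h3 := sing_sup hls hQ (fun x hx => ((hmem x).1 (hlW hx)).2.1)
      have h4 := hq.mx _ h3
      have h5 : line z₁ y < line z₁ y ⊔ Submodule.span F {v.rep} := by
        refine lt_of_le_of_ne le_sup_left ?_
        intro heq
        have : v.rep ∈ line z₁ y := by
          rw [heq]
          exact Submodule.mem_sup_right (Submodule.mem_span_singleton_self _)
        exact hf' ((hmem _).1 (hlW this)).2.2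
      have h6 := Submodule.finrank_lt_finrank_of_lt h5
      rw [finrank_line (Ne.symm hyne)] at h6
      omega
    · rintro rfl
      exact ⟨hz₁, pself Q hz2⟩
  have h3 := Finset.card_filter_add_card_filter_not (s := sp Q W₂)
    (fun y => QuadraticMap.polar Q z₁.rep y.rep ≠ 0)
  rw [h1, h2, Finset.card_singleton] at h3
  exact h3.symm

theorem hNWD (h1 : StCNT.{u, v}) (h2 : StLTP.{u, v}) (h3 : StOWK.{u, v}) : StNWD.{u, v} := by
  intro F _ _ hchar V _ _ _ _ Q hq w hw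
  have hww : QuadraticMap.polar Q w w ≠ 0 := by
    rw [polar_self_two]
    exact mul_ne_zero hchar hw
  have hWd : finrank F (prp Q w) = 4 := by
    have h := finrank_inf_ker (⊤ : Submodule F V) (QuadraticMap.polarBilin Q w)
      (fun h => hww (h Submodule.mem_top))
    rw [top_inf_eq, finrank_top, hq.hd] at h
    have h' : finrank F (prp Q w) + 1 = 5 := h
    omega
  have hnd : ∀ x ∈ prp Q w, x ≠ 0 → ∃ y ∈ prp Q w, QuadraticMap.polar Q x y ≠ 0 := by
    intro x hx hx0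
    obtain ⟨y, hy⟩ : ∃ y, QuadraticMap.polar Q x y ≠ 0 := by
      by_contra hcon
      push Not at hcon
      exact hx0 (hq.nd x hcon)
    obtain ⟨c, hc⟩ : ∃ c : F, c * QuadraticMap.polar Q w w = QuadraticMap.polar Q w y :=
      ⟨_, div_mul_cancel₀ _ hww⟩
    refine ⟨y - c • w, ?_, ?_⟩
    · rw [mem_prp, psub, hc, sub_self]
    · rw [psub, QuadraticMap.polar_comm Q x w, mem_prp.1 hx, mul_zero, sub_zero]
      exact hy
  have key : ∀ z ∈ sp Q (prp Q w), ∃ z₂ ∈ sp Q (prp Q w), QuadraticMap.polar Q z.rep z₂.rep ≠ 0 ∧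
      (lins Q (prp Q w) z.rep).ncard =
        (sp Q (prp Q w ⊓ prp Q z.rep ⊓ prp Q z₂.rep)).card ∧
      (sp Q (prp Q w)).card = Nat.card F ^ 2 + 1 +
        Nat.card F * (sp Q (prp Q w ⊓ prp Q z.rep ⊓ prp Q z₂.rep)).card := by
    intro z hz
    obtain ⟨hz1, hz2⟩ := mem_sp.1 hz
    have hc := h1 F V Q (prp Q w) z.rep 2 hz1 hz2 (hnd z.rep hz1 z.rep_nonzero) hWd
    have hpos : 0 < ((sp Q (prp Q w)).filter
        (fun y => QuadraticMap.polar Q z.rep y.rep ≠ 0)).card := by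
      rw [hc]
      exact pow_pos Nat.card_pos 2
    obtain ⟨z₂, hz₂⟩ := Finset.card_pos.1 hpos
    obtain ⟨hz3, hz4⟩ := Finset.mem_filter.1 hz₂
    obtain ⟨hz5, hz6⟩ := mem_sp.1 hz3
    have hl := h2 F V Q (prp Q w) z z₂ 2 hz1 hz5 hz2 hz6 hz4 hWd
    exact ⟨z₂, hz3, hz4, hl.1, hl.2.2⟩
  have hq0 : 0 < Nat.card F := Nat.card_pos
  rcases Finset.eq_empty_or_nonempty (sp Q (prp Q w)) with he | ⟨v, hv⟩
  · right
    rw [he, Finset.card_empty]
    exact Nat.zero_le _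
  obtain ⟨v₂, hv₂, hf, hk1, hk2⟩ := key v hv
  by_cases hn : (sp Q (prp Q w ⊓ prp Q v.rep ⊓ prp Q v₂.rep)).card = 0
  · right
    rw [hk2, hn, mul_zero, add_zero]
  left
  have htwo := two_pts h1 Q hq (prp Q w) hWd hnd v v₂ (mem_sp.1 hv).1 (mem_sp.1 hv₂).1
    (mem_sp.1 hv).2 (mem_sp.1 hv₂).2 hf hn
  rw [htwo] at hk1 hk2
  have hcard : (sp Q (prp Q w)).card = (Nat.card F + 1) ^ 2 := by
    rw [hk2]
    ring
  refine ⟨hcard, ?_⟩
  intro O hO
  have hlins : ∀ z ∈ sp Q (prp Q w), (lins Q (prp Q w) z.rep).ncard = 2 := by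
    intro z hz
    obtain ⟨z₂, _, _, hz1, hz2⟩ := key z hz
    rw [hz1]
    rw [hk2] at hz2
    exact (Nat.eq_of_mul_eq_mul_left hq0 (Nat.add_left_cancel hz2)).symm
  have h5 := h3 F V Q O hO (prp Q w) 2 (by norm_num) hlins
  rw [hcard, pow_two] at h5
  exact Nat.eq_of_mul_eq_mul_left (Nat.succ_pos _) h5

end Pool.Agent.Helper82.PQ
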